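import Pool.Agent.Helper91.PL.Defs

/-!
# The complexes of the open subschemes of the projective line over a field

`PL.Γ K k j` is the term of `Γ(K, k + j) ⊗ ℚ` in degree `j + 1` for a field `K` (see
`Pool.Agent.Helper91.PL.Defs`).  Here the curve is a set `X` of closed points of `P^1_F` with all
residue fields (for instance all closed points of an open subscheme).
-/

set_option autoImplicit false

open Polynomial

namespace Pool.Agent.Helper98.WF

noncomputable section

open PL

/-- The closed points of `P^1_F`: `none` is the point at infinity, the other points are the monic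
irreducible polynomials in `F[t]`. -/
abbrev CP (F : Type) [Field F] : Type := Option {P : F[X] // P.Monic ∧ Irreducible P}

variable {F : Type} [Field F]

/-- The residue field of a closed point: `F` for the point at infinity, `F[t] / (P)` for `P`. -/
def RF : CP F → Type
  | none => F
  | some P => AdjoinRoot P.1

instance instFieldRF : ∀ x : CP F, Field (RF x)
  | none => ‹Field F›
  | some P => @AdjoinRoot.instField F _ P.1 ⟨P.2.2⟩

/-- The direct sum of the terms of the complexes of the points of `X`. -/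
def ΓC (X : Set (CP F)) (k j : ℕ) : ModuleCat.{0} ℚ :=
  ModuleCat.of ℚ (DirectSum X fun x => Γ (RF x.1) k j)

/-- The differentials of the complexes of the points of `X`. -/
def dΓC (X : Set (CP F)) (d' : ∀ x : CP F, Dif (RF x)) (k j : ℕ) :
    ΓC X (k + 1) j →ₗ[ℚ] ΓC X k (j + 1) :=
  DirectSum.lmap fun x : X => d' x.1 k j

/-- The terms of the complexes of the open curve `X` in `P^1_F`: for `k + j = n` it is the sum of
the term of `Γ(F(t), n) ⊗ ℚ` in degree `i = j + 1` and of the terms of the complexes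
`Γ(F_x, n - 1) ⊗ ℚ` in degree `i - 2`, one for each closed point `x` of `X`. -/
def ΓX (X : Set (CP F)) (k j : ℕ) : ModuleCat.{0} ℚ :=
  match j with
  | 0 => Γ (RatFunc F) k 0
  | 1 => Γ (RatFunc F) k 1
  | (j' + 2) => ModuleCat.of ℚ (Γ (RatFunc F) k (j' + 2) × ΓC X (k + 1) j')

/-- Families of linear maps `Γ(F(t), n)^i → ⊕ Γ(F_x, n - 1)^{i - 1}` (residues). -/
abbrev Res (X : Set (CP F)) : Type :=
  ∀ k j : ℕ, Γ (RatFunc F) k (j + 1) →ₗ[ℚ] ΓC X k j

/-- The differential of the total complex: `(a, b) ↦ (d a, ∂ a - d b)`. -/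
def dΓX {X : Set (CP F)} (d : Dif (RatFunc F)) (d' : ∀ x : CP F, Dif (RF x)) (r : Res X)
    (k j : ℕ) : ΓX X (k + 1) j → ΓX X k (j + 1) :=
  match j with
  | 0 => fun a => d k 0 a
  | 1 => fun a => (d k 1 a, r (k + 1) 0 a)
  | (j' + 2) => fun a =>
      (d k (j' + 2) a.1, r (k + 1) (j' + 1) a.1 - dΓC X d' (k + 1) j' a.2)

/-- `H^i(Γ(X, n) ⊗ ℚ) = 0` for all `n ≥ 2` and `i ∈ {1, n - 1, n, n + 1}`:
* `one`: `H^1`, `n = k + 1`;
* `mid`: `H^{n - k}`, `n = k + j + 2`, for `k = 0` and `k = 1`;
* `top`: `H^{n + 1}`, `n = j + 2`. -/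
structure Ends {X : Set (CP F)} (d : Dif (RatFunc F)) (d' : ∀ x : CP F, Dif (RF x))
    (r : Res X) : Prop where
  one : ∀ k, 1 ≤ k → Function.Injective (dΓX d d' r k 0)
  mid : ∀ k ≤ 1, ∀ j, Function.Exact (dΓX d d' r (k + 1) j) (dΓX d d' r k (j + 1))
  top : ∀ j, Function.Surjective (dΓX d d' r 0 (j + 1))

end

end Pool.Agent.Helper98.WF
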