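import Mathlib

/-!
# Project WF (MP_bae8ce_ag): definitions

THEOREM.  Let `F` be an algebraic extension of `𝔽_p` (for instance a finite field), `X` a set of
closed points of `P^1_F` and `n ≥ 2`.  Then `H^i(Γ(X, n) ⊗ ℚ) = 0` for `i ∈ {1, n - 1, n, n + 1}`.
In particular `Γ(X, 2) ⊗ ℚ` and `Γ(X, 3) ⊗ ℚ` are acyclic.
-/

set_option autoImplicit false

open Polynomial

namespace Pool.Agent.Helper98.WF

noncomputable section

/-- Every element of `F` lies in a finite field of characteristic `p`. -/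
def Alg (p : ℕ) (F : Type) [Field F] : Prop := ∀ x : F, ∃ m, 0 < m ∧ x ^ p ^ m = x

/-- `L` behaves like the map `a ↦ a ⊗ 1` from the nonzero polynomials to `F(t)^* ⊗ ℚ`, where the
constants go to zero. -/
structure Lg {F E : Type} [Field F] [AddCommGroup E] [Module ℚ E] (L : F[X] → E) : Prop where
  mul : ∀ a b : F[X], a ≠ 0 → b ≠ 0 → L (a * b) = L a + L b
  con : ∀ c : F, L (C c) = 0

section

variable {F E : Type} [Field F] [AddCommGroup E] [Module ℚ E]

/-- the span of the polynomials of degree less than `d` (small polynomials) -/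
def Sm (L : F[X] → E) (d : ℕ) : Submodule ℚ E :=
  Submodule.span ℚ {x | ∃ a : F[X], a ≠ 0 ∧ a.natDegree < d ∧ L a = x}

/-- the span of the small polynomials and of a set `T` -/
def VT (L : F[X] → E) (d : ℕ) (T : Set F[X]) : Submodule ℚ E :=
  Sm L d ⊔ Submodule.span ℚ (L '' T)

/-- monic irreducible of degree `d` -/
def PrD (d : ℕ) (P : F[X]) : Prop := P.Monic ∧ Irreducible P ∧ P.natDegree = d

/-- the representative of a residue class modulo `P` -/
def rho (P : F[X]) (x : AdjoinRoot P) : F[X] :=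
  Function.surjInv (AdjoinRoot.mk_surjective (g := P)) x %ₘ P

/-- `x = L f`, `z = L h` for `f, h` with `1 - f = P h` (`f = a / c`, `h = b / c`), both in `S` -/
def Tri (L : F[X] → E) (P : F[X]) (S : Submodule ℚ E) (x z : E) : Prop :=
  ∃ a b c : F[X], a ≠ 0 ∧ b ≠ 0 ∧ c ≠ 0 ∧ a + P * b = c ∧ x = L a - L c ∧ z = L b - L c ∧
    x ∈ S ∧ z ∈ S

/-- the value of the form `m` at `(1 - u, u)`, `u = a / c` -/
def Z (L : F[X] → E) (m : E →ₗ[ℚ] E →ₗ[ℚ] ℚ) (a c : F[X]) : ℚ :=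
  m (L (c - a) - L c) (L a - L c)

/-- symmetric in the last two variables and zero on the diagonal -/
def Adm3 (φ : E →ₗ[ℚ] E →ₗ[ℚ] E →ₗ[ℚ] ℚ) : Prop :=
  (∀ x y z, φ x y z = φ x z y) ∧ ∀ x, φ x x x = 0

/-- zero on the symbols `(1 - f, f, f)`, `f = a / c`, `1 - f = b / c` -/
def Ste3 (L : F[X] → E) (φ : E →ₗ[ℚ] E →ₗ[ℚ] E →ₗ[ℚ] ℚ) : Prop :=
  ∀ a b c : F[X], a ≠ 0 → b ≠ 0 → c ≠ 0 → a + b = c → φ (L b - L c) (L a - L c) (L a - L c) = 0

end

end

end Pool.Agent.Helper98.WF
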