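import Pool.Agent.Helper98.WF.St
import Pool.Agent.Helper91.PL.P3

/-!
# Module BR of project WF: from the abstract statements to the field `F(t)`
-/

set_option autoImplicit false
set_option linter.unusedSectionVars false

open Polynomial

namespace Pool.Agent.Helper98.WF

noncomputable section

/-- the logarithm on polynomials -/
def LV (F : Type) [Field F] : F[X] → PL.V (RatFunc F) :=
  fun a => PL.lg (algebraMap F[X] (RatFunc F) a)

/-- the spanning statement in weight `r + 2` -/
def Sp (F : Type) [Field F] (r : ℕ) : Prop :=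
  ∀ φ : MultilinearMap ℚ (fun _ : Fin (r + 2) => PL.V (RatFunc F)) ℚ, PL.Adm φ →
    (∀ f : RatFunc F, f ≠ 0 → f ≠ 1 → φ (Fin.cons (PL.lg (1 - f)) fun _ => PL.lg f) = 0) →
    φ = 0

variable {F : Type} [Field F]

theorem alg_ne {a : F[X]} (ha : a ≠ 0) : algebraMap F[X] (RatFunc F) a ≠ 0 :=
  RatFunc.algebraMap_ne_zero ha

theorem lg_LV (p : ℕ) [Fact p.Prime] (hF : Alg p F) : Lg (LV F) where
  mul a b ha hb := by
    unfold LV
    rw [map_mul]
    exact PL.lg_mul (alg_ne ha) (alg_ne hb)
  con c := by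
    unfold LV
    rw [RatFunc.algebraMap_C]
    exact PL.p3_lg_C p hF c

theorem Sm_mono (L : F[X] → PL.V (RatFunc F)) {d e : ℕ} (h : d ≤ e) : Sm L d ≤ Sm L e := by
  refine Submodule.span_mono ?_
  rintro x ⟨a, ha, hd, rfl⟩
  exact ⟨a, ha, by omega, rfl⟩

theorem lg_div {f g : RatFunc F} (hf : f ≠ 0) (hg : g ≠ 0) :
    PL.lg (f / g) = PL.lg f - PL.lg g := by
  rw [div_eq_mul_inv, PL.lg_mul hf (inv_ne_zero hg), PL.lg_inv, sub_eq_add_neg]

theorem span_LV (x : PL.V (RatFunc F)) : ∃ d, x ∈ Sm (LV F) d := by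
  have hx : x ∈ Submodule.span ℚ (Set.range (PL.lg : RatFunc F → PL.V (RatFunc F))) := by
    rw [PL.span_lg]
    exact Submodule.mem_top
  induction hx using Submodule.span_induction with
  | mem y hy =>
    obtain ⟨f, rfl⟩ := hy
    by_cases hf : f = 0
    · exact ⟨0, by rw [hf, PL.lg_zero]; exact Submodule.zero_mem _⟩
    · have h1 : PL.lg f = LV F f.num - LV F f.denom := by
        conv_lhs => rw [← RatFunc.num_div_denom f]
        rw [lg_div (alg_ne (RatFunc.num_ne_zero hf)) (alg_ne (RatFunc.denom_ne_zero f))]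
        rfl
      refine ⟨max f.num.natDegree f.denom.natDegree + 1, ?_⟩
      rw [h1]
      refine Submodule.sub_mem _ (Submodule.subset_span ?_) (Submodule.subset_span ?_)
      · exact ⟨f.num, RatFunc.num_ne_zero hf, by omega, rfl⟩
      · exact ⟨f.denom, RatFunc.denom_ne_zero f, by omega, rfl⟩
  | zero => exact ⟨0, Submodule.zero_mem _⟩
  | add y z _ _ hy hz =>
    obtain ⟨d, hd⟩ := hy
    obtain ⟨e, he⟩ := hz
    exact ⟨max d e, Submodule.add_mem _ (Sm_mono _ (le_max_left _ _) hd)
      (Sm_mono _ (le_max_right _ _) he)⟩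
  | smul c y _ hy =>
    obtain ⟨d, hd⟩ := hy
    exact ⟨d, Submodule.smul_mem _ _ hd⟩

section multilinear

variable {E : Type} [AddCommGroup E] [Module ℚ E]

theorem m2_upd0 (x y w : E) : Function.update (![x, y] : Fin 2 → E) 0 w = ![w, y] := by
  ext i; fin_cases i <;> simp
theorem m2_upd1 (x y w : E) : Function.update (![x, y] : Fin 2 → E) 1 w = ![x, w] := by
  ext i; fin_cases i <;> simp
theorem m3_upd0 (x y z w : E) : Function.update (![x, y, z] : Fin 3 → E) 0 w = ![w, y, z] := by
  ext i; fin_cases i <;> simp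
theorem m3_upd1 (x y z w : E) : Function.update (![x, y, z] : Fin 3 → E) 1 w = ![x, w, z] := by
  ext i; fin_cases i <;> simp
theorem m3_upd2 (x y z w : E) : Function.update (![x, y, z] : Fin 3 → E) 2 w = ![x, y, w] := by
  ext i; fin_cases i <;> simp

/-- a bilinear map from a multilinear one -/
def bil (φ : MultilinearMap ℚ (fun _ : Fin 2 => E) ℚ) : E →ₗ[ℚ] E →ₗ[ℚ] ℚ :=
  LinearMap.mk₂ ℚ (fun x y => φ ![x, y])
    (fun x x' y => by
      have := φ.map_update_add ![x, y] 0 x x'
      simpa only [m2_upd0] using this)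
    (fun c x y => by
      have := φ.map_update_smul ![x, y] 0 c x
      simpa only [m2_upd0] using this)
    (fun x y y' => by
      have := φ.map_update_add ![x, y] 1 y y'
      simpa only [m2_upd1] using this)
    (fun c x y => by
      have := φ.map_update_smul ![x, y] 1 c y
      simpa only [m2_upd1] using this)

theorem bil_apply (φ : MultilinearMap ℚ (fun _ : Fin 2 => E) ℚ) (x y : E) :
    bil φ x y = φ ![x, y] := rfl

/-- a linear map in the last variable -/
def lin3 (φ : MultilinearMap ℚ (fun _ : Fin 3 => E) ℚ) (x y : E) : E →ₗ[ℚ] ℚ where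
  toFun z := φ ![x, y, z]
  map_add' z z' := by
    have := φ.map_update_add ![x, y, z] 2 z z'
    simpa only [m3_upd2] using this
  map_smul' c z := by
    have := φ.map_update_smul ![x, y, z] 2 c z
    rw [m3_upd2, m3_upd2] at this
    exact this

/-- a trilinear map from a multilinear one -/
def tril (φ : MultilinearMap ℚ (fun _ : Fin 3 => E) ℚ) : E →ₗ[ℚ] E →ₗ[ℚ] E →ₗ[ℚ] ℚ :=
  LinearMap.mk₂ ℚ (fun x y => lin3 φ x y)
    (fun x x' y => by
      ext z
      have := φ.map_update_add ![x, y, z] 0 x x'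
      rw [m3_upd0, m3_upd0, m3_upd0] at this
      exact this)
    (fun c x y => by
      ext z
      have := φ.map_update_smul ![x, y, z] 0 c x
      rw [m3_upd0, m3_upd0] at this
      exact this)
    (fun x y y' => by
      ext z
      have := φ.map_update_add ![x, y, z] 1 y y'
      rw [m3_upd1, m3_upd1, m3_upd1] at this
      exact this)
    (fun c x y => by
      ext z
      have := φ.map_update_smul ![x, y, z] 1 c y
      rw [m3_upd1, m3_upd1] at this
      exact this)

theorem tril_apply (φ : MultilinearMap ℚ (fun _ : Fin 3 => E) ℚ) (x y z : E) :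
    tril φ x y z = φ ![x, y, z] := rfl

end multilinear

/-- the symbol of a pair of polynomials -/
theorem ratio (a b c : F[X]) (hb : b ≠ 0) (hc : c ≠ 0) (ha : a ≠ 0) (h : a + b = c) :
    ∃ f : RatFunc F, f ≠ 0 ∧ f ≠ 1 ∧ PL.lg f = LV F a - LV F c ∧
      PL.lg (1 - f) = LV F b - LV F c := by
  have hc' := alg_ne hc
  refine ⟨algebraMap F[X] (RatFunc F) a / algebraMap F[X] (RatFunc F) c,
    div_ne_zero (alg_ne ha) hc', ?_, lg_div (alg_ne ha) hc', ?_⟩
  · intro h1
    rw [div_eq_one_iff_eq hc'] at h1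
    have h2 := RatFunc.algebraMap_injective F h1
    rw [h2] at h
    exact hb (left_eq_add.1 h.symm)
  · have h1 : 1 - algebraMap F[X] (RatFunc F) a / algebraMap F[X] (RatFunc F) c =
        algebraMap F[X] (RatFunc F) b / algebraMap F[X] (RatFunc F) c := by
      rw [eq_div_iff hc', sub_mul, div_mul_cancel₀ _ hc', one_mul, ← h, map_add]
      ring
    rw [h1]
    exact lg_div (alg_ne hb) hc'

theorem sp_zero (p : ℕ) [Fact p.Prime] [CharP F p] (hSPB : StSPB) (hF : Alg p F) : Sp F 0 := by
  intro φ hφ hz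
  have h0 : ∀ x y, bil φ x y = 0 := by
    refine hSPB p F _ (LV F) (bil φ) hF (lg_LV p hF) span_LV ?_ ?_
    · intro x
      rw [bil_apply]
      have h1 := hφ.diag x
      rw [← h1]
      congr 1
      ext i; fin_cases i <;> rfl
    · intro a b c ha hb hc h
      obtain ⟨f, hf0, hf1, hf, hf'⟩ := ratio a b c hb hc ha h
      have h1 := hz f hf0 hf1
      rw [hf, hf'] at h1
      rw [bil_apply, ← h1]
      congr 1
      ext i; fin_cases i <;> rfl
  ext v
  have h1 := h0 (v 0) (v 1)
  rw [bil_apply] at h1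
  have h2 : (![v 0, v 1] : Fin 2 → PL.V (RatFunc F)) = v := by
    ext i; fin_cases i <;> rfl
  rw [h2] at h1
  exact h1

theorem sp_one (p : ℕ) [Fact p.Prime] [CharP F p] (hIND : StIND) (hF : Alg p F) : Sp F 1 := by
  intro φ hφ hz
  have h0 : ∀ x y z, tril φ x y z = 0 := by
    refine hIND p F _ (LV F) (tril φ) hF (lg_LV p hF) span_LV ⟨?_, ?_⟩ ?_
    · intro x y z
      rw [tril_apply, tril_apply]
      have h1 := hφ.symm (Equiv.swap 1 2) (by decide) ![x, y, z]
      rw [← h1]
      congr 1
      ext i; fin_cases i <;> rfl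
    · intro x
      rw [tril_apply]
      have h1 := hφ.diag x
      rw [← h1]
      congr 1
      ext i; fin_cases i <;> rfl
    · intro a b c ha hb hc h
      obtain ⟨f, hf0, hf1, hf, hf'⟩ := ratio a b c hb hc ha h
      have h1 := hz f hf0 hf1
      rw [hf, hf'] at h1
      rw [tril_apply, ← h1]
      congr 1
      ext i; fin_cases i <;> rfl
  ext v
  have h1 := h0 (v 0) (v 1) (v 2)
  rw [tril_apply] at h1
  have h2 : (![v 0, v 1, v 2] : Fin 3 → PL.V (RatFunc F)) = v := by
    ext i; fin_cases i <;> rfl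
  rw [h2] at h1
  exact h1

end

end Pool.Agent.Helper98.WF
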