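import Pool.Agent.Helper98.WF.M_BR
import Pool.Agent.Helper91.PL.X4

/-!
# Module EX of project WF: exactness at the end of the complexes of `F(t)`
-/

set_option autoImplicit false

open Finset
open scoped TensorProduct

namespace Pool.Agent.Helper98.WF

noncomputable section

open PL

variable {F : Type} [Field F]

/-- The extra vanishing property, from the spanning theorem in weight three. -/
theorem ex_hSC (hS : Sp F 1) (j : ℕ)
    (M : MultilinearMap ℚ (fun _ : Fin (0 + 2) => V (RatFunc F))
      (V (RatFunc F) [⋀^Fin (j + 1)]→ₗ[ℚ] ℚ)) (hM : Adm (q := 0) M)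
    (h : ∀ f : RatFunc F, ∀ v : Fin j → V (RatFunc F),
      M (Fin.cons (lg (1 - f)) fun _ => lg f) (Fin.cons (lg f) v) = 0)
    (x y : V (RatFunc F)) (v : Fin (j + 1) → V (RatFunc F)) (hv : ∃ i, v i = y) :
    M (Fin.cons x fun _ => y) v = 0 := by
  refine x2_alt_mem _ y (fun v' => ?_) v hv
  obtain ⟨M', hM', hMM⟩ := x2_symmetrise (q := 0 + 1) (x2_plus M v') (fun x => by
    rw [x2_plus_apply, hM.diag x]; rfl)
  have h0 : M' = 0 := hS M' hM' (fun f _ _ => by
    rw [hMM, x2_plus_cons, h])
  rw [← x2_plus_cons, ← hMM, h0]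
  rfl

theorem ex_exact2 (hS : Sp F 1)
    (hR : ∀ q, R (q + 2) (RatFunc F) = NN q (RatFunc F)) (j : ℕ) :
    Function.Exact (x2_D3 (RatFunc F) 0 j) (x2_D2 (RatFunc F) (j + 1)) := by
  refine exact_of_dual _ _ (x2_D2_D3 j hR) fun l hl => ?_
  obtain ⟨M, hM, hlM⟩ := form_of_functional 0 (j + 1) (hR 0) l
  refine x2_factor2 (j + 1) (hR 0) l M hM hlM ?_
  refine ex_hSC hS j M hM fun f v => ?_
  have h1 := LinearMap.congr_fun hl (sym 3 (some f) ⊗ₜ exteriorPower.ιMulti ℚ j v)
  rw [LinearMap.comp_apply, LinearMap.zero_apply] at h1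
  have h2 := x2_D3_gen 0 j hR (some f) v
  change l (x2_D3 (RatFunc F) 0 j (sym (0 + 3) (some f) ⊗ₜ _)) = 0 at h1
  rw [h2] at h1
  rw [← h1]
  exact (hlM (some f) (Fin.cons (lg f) v)).symm

theorem ex_surj (hS : Sp F 0)
    (hR : ∀ q, R (q + 2) (RatFunc F) = NN q (RatFunc F)) (j : ℕ) :
    Function.Surjective (x2_D2 (RatFunc F) j) := by
  refine surj_of_dual _ fun l hl => ?_
  refine exteriorPower.linearMap_ext ?_
  ext w
  rw [LinearMap.compAlternatingMap_apply, LinearMap.compAlternatingMap_apply,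
    LinearMap.zero_apply]
  let A : V (RatFunc F) [⋀^Fin (j + 2)]→ₗ[ℚ] ℚ := l.compAlternatingMap (exteriorPower.ιMulti ℚ _)
  let v : Fin j → V (RatFunc F) := fun i => w i.succ.succ
  have hw : w = Fin.cons (w 0) (Fin.cons (w 1) v) := by
    ext i
    refine Fin.cases ?_ (fun i => ?_) i
    · rfl
    · refine Fin.cases ?_ (fun i => ?_) i
      · rfl
      · rfl
  obtain ⟨M, hM⟩ := x2_two A v
  have hAdm : Adm (q := 0) M := by
    refine ⟨?_, ?_⟩
    · intro σ hσ x
      have : σ = 1 := by
        ext i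
        fin_cases i
        · simp [hσ]
        · have h1 : σ 1 ≠ 0 := fun h => by
            have := σ.injective (h.trans hσ.symm)
            exact absurd this (by decide)
          have h2 : σ 1 = 1 := by
            have := Fin.exists_succ_eq.2 h1
            obtain ⟨l, hl⟩ := this
            rw [← hl]
            have : l = 0 := Subsingleton.elim _ _
            rw [this]; rfl
          simp [h2]
      rw [this]
      rfl
    · intro x
      rw [hM]
      exact A.map_eq_zero_of_eq _ (i := 0) (j := 1) rfl (by simp)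
  have h0 : M = 0 := hS M hAdm (fun f _ _ => by
    have h1 := LinearMap.congr_fun hl (sym 2 (some f) ⊗ₜ exteriorPower.ιMulti ℚ j v)
    rw [LinearMap.comp_apply, LinearMap.zero_apply, x2_D2_gen j (hR 0)] at h1
    rw [hM]
    exact h1)
  have h1 : M ![w 0, w 1] = A w := by
    rw [hM]
    conv_rhs => rw [hw]
    rfl
  rw [h0] at h1
  exact h1.symm

theorem ex_main (hS0 : Sp F 0) (hS1 : Sp F 1)
    (hR : ∀ q, R (q + 2) (RatFunc F) = NN q (RatFunc F)) :
    (∀ k, 1 ≤ k → Function.Injective (x4_d (RatFunc F) k 0)) ∧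
    ∀ k ≤ 1, ∀ j, Function.Exact (x4_d (RatFunc F) (k + 1) j) (x4_d (RatFunc F) k (j + 1)) := by
  constructor
  · intro k hk
    match k with
    | 0 => omega
    | 1 => exact x2_inj2 hR
    | q + 2 => exact x2_inj3 hR q
  · intro k hk j
    match k with
    | 0 =>
      intro y
      constructor
      · intro _
        exact ex_surj hS0 hR j y
      · intro _
        rfl
    | 1 => exact ex_exact2 hS1 hR j
    | q + 2 => omega

end

end Pool.Agent.Helper98.WF
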