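import Pool.Agent.Helper98.WF.Curve
import Pool.Agent.Helper98.WF.M_EX

/-!
# Module FIN of project WF: assembly
-/

set_option autoImplicit false

open Polynomial

namespace Pool.Agent.Helper98.WF

noncomputable section

open PL

variable {F : Type} [Field F]

theorem fin_alg (p : ℕ) [Fact p.Prime] [CharP F p] (hTOR : StTOR) (hF : Alg p F) (x : CP F) :
    CharP (RF x) p ∧ Alg p (RF x) := by
  match x with
  | none => exact ⟨inferInstanceAs (CharP F p), hF⟩
  | some P =>
    have : Fact (Irreducible P.1) := ⟨P.2.2⟩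
    obtain ⟨h1, h2, -⟩ := hTOR p F P.1 hF
    exact ⟨h1, h2⟩

theorem fin_R (p : ℕ) [Fact p.Prime] (K : Type) [Field K] (inst : CharP K p) (hK : Alg p K) :
    ∀ q, R (q + 2) K = NN q K := fun q => R_eq_NN p q K _ (Tow.base K _ inst hK)

theorem fin_main (p : ℕ) [Fact p.Prime] [CharP F p] (hTOR : StTOR) (hS0 : Sp F 0) (hS1 : Sp F 1)
    (hF : Alg p F) (X : Set (CP F)) :
    (∃ d, IsDif (RatFunc F) d) ∧ (∀ x : CP F, ∃ d', IsDif (RF x) d') ∧
      ∀ d, ∀ d' : ∀ x : CP F, Dif (RF x), IsDif (RatFunc F) d → (∀ x, IsDif (RF x) (d' x)) →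
        ∀ r : Res X, Ends d d' r := by
  have hb : Tow p F _ := Tow.base F _ inferInstance hF
  have hR1 : ∀ q, R (q + 2) (RatFunc F) = NN q (RatFunc F) :=
    fun q => R_eq_NN p q (RatFunc F) _ (Tow.step F _ hb)
  have hRx : ∀ x : CP F, ∀ q, R (q + 2) (RF x) = NN q (RF x) := fun x =>
    fin_R p (RF x) (fin_alg p hTOR hF x).1 (fin_alg p hTOR hF x).2
  refine ⟨⟨_, x4_isDif hR1⟩, fun x => ⟨_, x4_isDif (hRx x)⟩, ?_⟩
  intro e e' he he' r
  obtain rfl := x4_unique e he hR1
  obtain ⟨hinj, hex⟩ := ex_main hS0 hS1 hR1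
  have hsub : ∀ k j, 1 ≤ k + j → Subsingleton (ΓC X k j) := by
    intro k j h
    have h1 : ∀ x : CP F, Subsingleton (Γ (RF x) k j) := fun x => by
      have := (fin_alg p hTOR hF x).1
      exact x4_sub p (fin_alg p hTOR hF x).2 (hRx x) k j h
    refine ⟨fun a b => DFinsupp.ext (f := (a : DirectSum X fun x => Γ (RF x.1) k j)) (g := b)
      fun x => ?_⟩
    have := h1 x.1
    exact Subsingleton.elim _ _
  refine ⟨fun k hk => hinj k hk, ?_, ?_⟩
  · intro k hk j
    match j with
    | 0 =>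
      have := hsub (k + 1) 0 (by omega)
      intro x
      have h0 := hex k hk 0 x
      constructor
      · intro h
        have h1 : x4_d (RatFunc F) k 1 x = 0 := congrArg Prod.fst h
        exact h0.1 h1
      · intro h
        have h1 := h0.2 h
        exact Prod.ext h1 (Subsingleton.elim _ _)
    | 1 =>
      have := hsub (k + 1) 1 (by omega)
      have := hsub (k + 2) 0 (by omega)
      rintro ⟨x, y⟩
      have h0 := hex k hk 1 x
      constructor
      · intro h
        have h1 : x4_d (RatFunc F) k 2 x = 0 := congrArg Prod.fst h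
        obtain ⟨z, hz⟩ := h0.1 h1
        exact ⟨z, Prod.ext hz (Subsingleton.elim _ _)⟩
      · rintro ⟨z, hz⟩
        have h1 : x4_d (RatFunc F) (k + 1) 1 z = x := congrArg Prod.fst hz
        have h2 := h0.2 ⟨z, h1⟩
        exact Prod.ext h2 (Subsingleton.elim _ _)
    | (j' + 2) =>
      have := hsub (k + 1) (j' + 2) (by omega)
      have := hsub (k + 2) (j' + 1) (by omega)
      rintro ⟨x, y⟩
      have h0 := hex k hk (j' + 2) x
      constructor
      · intro h
        have h1 : x4_d (RatFunc F) k (j' + 3) x = 0 := congrArg Prod.fst h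
        obtain ⟨z, hz⟩ := h0.1 h1
        exact ⟨(z, 0), Prod.ext hz (Subsingleton.elim _ _)⟩
      · rintro ⟨z, hz⟩
        have h1 : x4_d (RatFunc F) (k + 1) (j' + 2) z.1 = x := congrArg Prod.fst hz
        have h2 := h0.2 ⟨z.1, h1⟩
        exact Prod.ext h2 (Subsingleton.elim _ _)
  · intro j
    have := hsub 1 j (by omega)
    intro y
    exact ⟨0, Prod.ext (Subsingleton.elim (α := PUnit) _ _) (Subsingleton.elim _ _)⟩

end

end Pool.Agent.Helper98.WF
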