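import Pool.Agent.Helper98.WF.St

set_option autoImplicit false

open Polynomial

namespace Pool.Agent.Helper98.WF.M_POL

open Pool.Agent.Helper98.WF

theorem stPOL : StPOL := by
  intro E _ _ φ hφ x y z
  obtain ⟨hs, hd⟩ := hφ
  have h1 := hd (x + y + z)
  have h2 := hd (x + y)
  have h3 := hd (x + z)
  have h4 := hd (y + z)
  have h5 := hd x
  have h6 := hd y
  have h7 := hd z
  simp only [map_add, LinearMap.add_apply] at h1 h2 h3 h4
  have s1 := hs x y z
  have s2 := hs y x z
  have s3 := hs z x y
  linarith

end Pool.Agent.Helper98.WF.M_POL
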