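import Pool.Agent.Helper98.WF.St

set_option autoImplicit false

open Polynomial

namespace Pool.Agent.Helper98.WF.M_SPB

open Pool.Agent.Helper98.WF

theorem stSPB (hTB : StTB) (hGEN : StGEN) : StSPB := by
  intro p _ F E _ _ _ _ L A hF hL hspan hA hS x y
  obtain ⟨⟨h0, h1, hneg⟩, g2, g3, g4, g5, g6, g7⟩ := hGEN F E L hL
  have key : ∀ d, 1 ≤ d → ∀ x ∈ VT L d (∅ : Set F[X]), ∀ y ∈ VT L d (∅ : Set F[X]),
      A x y = 0 := by
    intro d hd
    refine hTB p F E L d ∅ A hF hL hd (fun R hR => absurd hR (Set.notMem_empty R))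
      (fun x _ => hA x) ?_ (fun R hR => absurd hR (Set.notMem_empty R))
    intro R a b c s hR ha hb hc hs _ _ _ _ _ h
    have h2 := hS (a * b) (R * (-s)) c (mul_ne_zero ha hb) (mul_ne_zero hR (neg_ne_zero.2 hs)) hc
      (by rw [h]; ring)
    rw [hL.mul a b ha hb, hL.mul R (-s) hR (neg_ne_zero.2 hs), hneg] at h2
    exact h2
  obtain ⟨d, hx⟩ := hspan x
  obtain ⟨e, hy⟩ := hspan y
  refine key (max d e + 1) (by omega) x ?_ y ?_
  · exact (g6 _ _).1 (g3 d _ (by omega) hx)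
  · exact (g6 _ _).1 (g3 e _ (by omega) hy)

end Pool.Agent.Helper98.WF.M_SPB
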