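import Pool.Agent.Helper98.WF.St

set_option autoImplicit false

open Polynomial

namespace Pool.Agent.Helper98.WF.M_TB

open Pool.Agent.Helper98.WF

theorem stTB (hTA : StTA) (hGEN : StGEN) : StTB := by
  intro p _ F E _ _ _ _ L d T A hF hL hd hT hA h1 h2
  obtain ⟨⟨e0, e1, hneg⟩, g2, g3, g4, g5, g6, g7⟩ := hGEN F E L hL
  have key : ∀ e, 1 ≤ e → e ≤ d → ∀ x ∈ Sm L e, ∀ y ∈ Sm L e, A x y = 0 := by
    intro e he
    induction e, he using Nat.le_induction with
    | base =>
      intro _ x hx y _
      rw [g4 x hx, map_zero, LinearMap.zero_apply]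
    | succ e he ih =>
      intro hed x hx y hy
      have hle : VT L e {R : F[X] | PrD e R} ≤ Sm L d := by
        refine sup_le (g3 e d (by omega)) (Submodule.span_le.2 ?_)
        rintro _ ⟨R, hR, rfl⟩
        exact g2 d R (by rw [hR.2.2]; omega)
      refine hTA p F E L e {R : F[X] | PrD e R} A hF hL (fun R hR => hR)
        (fun x hx => hA x ((g6 d T).1 (hle hx))) (ih (by omega)) ?_ ?_ x (g5 e he hx) y
        (g5 e he hy)
      · intro R hR a b c s ha hb hc hs ha' hb' hc' hs' h
        have hR0 : R ≠ 0 := hR.2.1.ne_zero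
        have hRd : R.natDegree = e := hR.2.2
        exact h1 R a b c s hR0 ha hb hc hs (Or.inl (by omega)) (by omega) (by omega) (by omega)
          (by omega) h
      · intro R hR R' hR' r hr hr' h
        have hR0 : R ≠ 0 := hR.2.1.ne_zero
        have hR0' : R' ≠ 0 := hR'.2.1.ne_zero
        have hRd : R.natDegree = e := hR.2.2
        have hRd' : R'.natDegree = e := hR'.2.2
        have h3 := h1 r R 1 R' 1 hr hR0 one_ne_zero hR0' one_ne_zero (Or.inl (by omega))
          (by omega) (by rw [natDegree_one]; omega) (by omega) (by rw [natDegree_one]; omega)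
          (by rw [mul_one, mul_one]; exact h)
        rw [e1, add_zero, add_zero] at h3
        exact h3
  refine hTA p F E L d T A hF hL hT hA (key d hd le_rfl) ?_ h2
  intro R hR a b c s ha hb hc hs ha' hb' hc' hs' h
  exact h1 R a b c s (hT R hR).2.1.ne_zero ha hb hc hs (Or.inr hR) ha' hb' hc' hs' h

end Pool.Agent.Helper98.WF.M_TB
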