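import Pool.Agent.Helper98.WF.St

set_option autoImplicit false

open Polynomial

namespace Pool.Agent.Helper98.WF.M_TOR

open Pool.Agent.Helper98.WF

theorem alg_of_algebraic (p : ℕ) [Fact p.Prime] (F : Type) [Field F] [Algebra (ZMod p) F]
    [Algebra.IsAlgebraic (ZMod p) F] : Alg p F := by
  intro x
  have hx : IsIntegral (ZMod p) x :=
    (Algebra.IsAlgebraic.isAlgebraic (R := ZMod p) x).isIntegral
  have : FiniteDimensional (ZMod p) (IntermediateField.adjoin (ZMod p) {x}) :=
    IntermediateField.adjoin.finiteDimensional hx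
  have : Finite (IntermediateField.adjoin (ZMod p) {x}) := Module.finite_of_finite (ZMod p)
  let _ : Fintype (IntermediateField.adjoin (ZMod p) {x}) := Fintype.ofFinite _
  have : CharP (IntermediateField.adjoin (ZMod p) {x}) p :=
    charP_of_injective_algebraMap
      (algebraMap (ZMod p) (IntermediateField.adjoin (ZMod p) {x})).injective p
  obtain ⟨n, hp, hn⟩ := FiniteField.card (IntermediateField.adjoin (ZMod p) {x}) p
  refine ⟨n, n.pos, ?_⟩
  have h := FiniteField.pow_card (⟨x, IntermediateField.mem_adjoin_simple_self (ZMod p) x⟩ :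
    IntermediateField.adjoin (ZMod p) {x})
  rw [hn] at h
  exact congrArg Subtype.val h

theorem stTOR : StTOR := by
  intro p _ F _ _ P hP hF
  have hp : p.Prime := Fact.out
  have hchar : CharP (AdjoinRoot P) p :=
    charP_of_injective_algebraMap (algebraMap F (AdjoinRoot P)).injective p
  have halg : Alg p (AdjoinRoot P) := by
    let _ : Algebra (ZMod p) F := ZMod.algebra F p
    have h1 : Algebra.IsAlgebraic (ZMod p) F := by
      refine ⟨fun x => ?_⟩
      obtain ⟨m, hm, hx⟩ := hF x
      refine ⟨X ^ p ^ m - X, ?_, ?_⟩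
      · exact FiniteField.X_pow_card_pow_sub_X_ne_zero (ZMod p) hm.ne' hp.one_lt
      · simp [hx]
    have h2 : Module.Finite F (AdjoinRoot P) :=
      (AdjoinRoot.powerBasis hP.out.ne_zero).finite
    have h3 : Algebra.IsAlgebraic F (AdjoinRoot P) := Algebra.IsAlgebraic.of_finite F _
    have h4 : Algebra.IsAlgebraic (ZMod p) (AdjoinRoot P) :=
      Algebra.IsAlgebraic.trans (ZMod p) F (AdjoinRoot P)
    exact alg_of_algebraic p (AdjoinRoot P)
  have htor : ∀ g : (AdjoinRoot P)ˣ, ∃ m, 0 < m ∧ g ^ m = 1 := by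
    intro g
    obtain ⟨m, hm, hg⟩ := halg (g : AdjoinRoot P)
    have h1 : 1 < p ^ m := Nat.one_lt_pow hm.ne' hp.one_lt
    refine ⟨p ^ m - 1, by omega, ?_⟩
    have h2 : g ^ (p ^ m - 1) * g = g := by
      rw [← pow_succ, Nat.sub_add_cancel h1.le]
      ext
      rw [Units.val_pow_eq_pow_val]
      exact hg
    exact mul_eq_right.1 h2
  refine ⟨hchar, halg, htor, ?_⟩
  intro l hl g
  obtain ⟨m, hm, hg⟩ := htor g
  have h1 : l 1 = 0 := by
    have := hl 1 1
    rw [mul_one] at this
    linarith
  have h2 : ∀ n : ℕ, l (g ^ n) = n * l g := by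
    intro n
    induction n with
    | zero => rw [pow_zero, h1]; simp
    | succ n ih => rw [pow_succ, hl, ih]; push_cast; ring
  have h3 := h2 m
  rw [hg, h1] at h3
  have hm' : (m : ℚ) ≠ 0 := by exact_mod_cast hm.ne'
  rcases mul_eq_zero.1 h3.symm with h | h
  · exact absurd h hm'
  · exact h

end Pool.Agent.Helper98.WF.M_TOR
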