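import Pool.Agent.Helper98.WF.M_FIN
import Pool.Agent.Helper13.WF.M_GA
import Pool.Agent.Helper28.WF.M_FT
import Pool.Agent.Helper60.WF.M_RHO
import Pool.Agent.Helper98.WF.M_TOR
import Pool.Agent.Helper78.WF.M_GEN
import Pool.Agent.Helper2.WF.M_QA
import Pool.Agent.Helper2.WF.M_QB
import Pool.Agent.Helper80.WF.M_CMP
import Pool.Agent.Helper79.WF.M_BA
import Pool.Agent.Helper90.WF.M_BB
import Pool.Agent.Helper6.WF.M_TA
import Pool.Agent.Helper98.WF.M_TB
import Pool.Agent.Helper62.WF.M_NZ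
import Pool.Agent.Helper4.WF.M_MZ
import Pool.Agent.Helper98.WF.M_POL
import Pool.Agent.Helper92.WF.M_STP
import Pool.Agent.Helper12.WF.M_IND
import Pool.Agent.Helper98.WF.M_SPB

/-!
# Project WF: the theorem
-/

set_option autoImplicit false

namespace Pool.Agent.Helper98.WF

open Polynomial PL

theorem pRHO : StRHO := Pool.Agent.Helper60.WF.M_RHO.stRHO
theorem pTOR : StTOR := Pool.Agent.Helper98.WF.M_TOR.stTOR
theorem pGEN : StGEN := Pool.Agent.Helper78.WF.M_GEN.stGEN
theorem pGA : StGA := Pool.Agent.Helper13.WF.M_GA.stGA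
theorem pFT : StFT := Pool.Agent.Helper28.WF.M_FT.stFT
theorem pPOL : StPOL := Pool.Agent.Helper98.WF.M_POL.stPOL
theorem pQA : StQA := Pool.Agent.Helper2.WF.M_QA.stQA pGA pRHO pTOR pGEN
theorem pQB : StQB := Pool.Agent.Helper2.WF.M_QB.stQB pRHO pTOR pGEN
theorem pCMP : StCMP := Pool.Agent.Helper80.WF.M_CMP.stCMP pGEN
theorem pBA : StBA := Pool.Agent.Helper79.WF.M_BA.stBA pCMP pRHO pGEN
theorem pBB : StBB := Pool.Agent.Helper90.WF.M_BB.stBB pBA pFT pRHO pTOR pGEN
theorem pTA : StTA := Pool.Agent.Helper6.WF.M_TA.stTA pRHO pTOR pGEN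
theorem pTB : StTB := Pool.Agent.Helper98.WF.M_TB.stTB pTA pGEN
theorem pNZ : StNZ := Pool.Agent.Helper62.WF.M_NZ.stNZ pRHO pTOR pGEN
theorem pMZ : StMZ := Pool.Agent.Helper4.WF.M_MZ.stMZ pBB pTB pCMP pGEN pRHO
theorem pSTP : StSTP := Pool.Agent.Helper92.WF.M_STP.stSTP pQA pQB pMZ pNZ pPOL pGEN
theorem pIND : StIND := Pool.Agent.Helper12.WF.M_IND.stIND pSTP pGEN
theorem pSPB : StSPB := Pool.Agent.Helper98.WF.M_SPB.stSPB pTB pGEN

/-- an algebraic extension of `𝔽_p` is locally finite -/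
theorem alg_of_algebraic (p : ℕ) [Fact p.Prime] (F : Type) [Field F] [Algebra (ZMod p) F]
    [Algebra.IsAlgebraic (ZMod p) F] : Alg p F := by
  intro x
  have hx : IsIntegral (ZMod p) x :=
    (Algebra.IsAlgebraic.isAlgebraic (R := ZMod p) x).isIntegral
  have : FiniteDimensional (ZMod p) (IntermediateField.adjoin (ZMod p) {x}) :=
    IntermediateField.adjoin.finiteDimensional hx
  have : Finite (IntermediateField.adjoin (ZMod p) {x}) := Module.finite_of_finite (ZMod p)
  let _ : Fintype (IntermediateField.adjoin (ZMod p) {x}) := Fintype.ofFinite _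
  have : CharP (IntermediateField.adjoin (ZMod p) {x}) p :=
    charP_of_injective_algebraMap
      (algebraMap (ZMod p) (IntermediateField.adjoin (ZMod p) {x})).injective p
  obtain ⟨n, hp, hn⟩ := FiniteField.card (IntermediateField.adjoin (ZMod p) {x}) p
  refine ⟨n, n.pos, ?_⟩
  have h := FiniteField.pow_card (⟨x, IntermediateField.mem_adjoin_simple_self (ZMod p) x⟩ :
    IntermediateField.adjoin (ZMod p) {x})
  rw [hn] at h
  exact congrArg Subtype.val h

theorem main (p : ℕ) [Fact p.Prime] (F : Type) [Field F] [Algebra (ZMod p) F]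
    [Algebra.IsAlgebraic (ZMod p) F] (X : Set (CP F)) :
    (∃ d, IsDif (RatFunc F) d) ∧ (∀ x : CP F, ∃ d', IsDif (RF x) d') ∧
      ∀ d, ∀ d' : ∀ x : CP F, Dif (RF x), IsDif (RatFunc F) d → (∀ x, IsDif (RF x) (d' x)) →
        ∀ r : Res X, Ends d d' r := by
  have hc : CharP F p := charP_of_injective_algebraMap (algebraMap (ZMod p) F).injective p
  have hF := alg_of_algebraic p F
  exact fin_main p pTOR (sp_zero p pSPB hF) (sp_one p pIND hF) hF X

end Pool.Agent.Helper98.WF
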