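import Pool.Agent.Helper98.WF.Defs

/-!
# Project WF (MP_bae8ce_ag): statements of the modules, with complete proofs in the docstrings

Every module `XXX` proves `StXXX`; all modules are independent, other statements may be used as
hypotheses.  A polynomial is called small if its degree is less than `d`.  `κ = AdjoinRoot P` is the
residue field of the prime `P` of degree `d`, `[x] = L (rho P x)` for `x ∈ κ^*`.  Everything happens
in a `ℚ`-vector space `E` with a logarithm `L : F[X] → E` (`E = F(t)^* ⊗ ℚ`).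
-/

set_option autoImplicit false

open Polynomial

namespace Pool.Agent.Helper98.WF

/-! ### GA: quadratic forms and torsion groups (80-150 lines)

PROOF. Write `Q x = q x x`, `D_h a = b (a h) - b a`. The hypothesis with `(a h) * b' = a * (b' h)`
says `Q (D_h a - D_h b') = 0` for all `a, b', h`. (*)
Step 1: `q (D_h a) (D_h b') = 0`. Let `h ^ m = 1`, `m > 0`. For all `a`:
`∑ i < m, D_h (a h^i) = b (a h^m) - b a = 0` (telescoping). Expand (*) with `b' h^i` in place of `b'`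
and sum over `i < m`: `m Q (D_h a) + ∑ i < m, Q (D_h (b' h^i)) = 0`. Take `b' = a` and sum this over
`a h^j`, `j < m` (the function `i ↦ Q (D_h (a h^i))` is periodic, so
`∑ i < m, Q (D_h (a h^(i+j))) = ∑ i < m, Q (D_h (a h^i))`): `2 m ∑ i < m, Q (D_h (a h^i)) = 0`. So
`Q (D_h a) = 0` for all `a, h` (insert in the previous formula with `b' = a`), and by (*)
`q (D_h a) (D_h b') = 0`.
Step 2: Let `R` be the group ring `MonoidAlgebra ℚ G` (or functions `G →₀ ℚ`), `B(x, y)` the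
bilinear form on `R` with `B(g, g') = q (b g) (b g')`, and `X_h = h - 1 ∈ R`. Step 1 says
`B(X_h x, X_h y) = 0` for all `x, y ∈ R`, `h ∈ G`. (E)
As `X_{hk} = X_h X_k + X_h + X_k`, expanding `B(X_{hk} u, X_{hk} v) = 0` and using (E) for `h` and for `k`
gives `B(X_h u, X_k v) + B(X_k u, X_h v) = 0`. (P)
Hence `B(X_h X_k w, X_l v) = - B(X_l X_k w, X_h v)` [(P) for `h, l`, `u = X_k w`]
`= B(X_h X_l w, X_k v)` [(P) for `k, h`, `u = X_l w`] `= - B(X_k X_h w, X_l v)` [(P) for `l, k`,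
`u = X_h w`], so `B(X_h X_k w, X_l v) = 0`. (T)
Step 3: if `g ^ m = 1`, `m > 0`, then `∑ i < m, X_g g^i = 0`, so `m X_g = - ∑ i < m, X_g X_{g^i}` and
`B(X_g, X_{g'}) = 0` by (T). Since `b 1 = 0`, `B(X_g, X_{g'}) = q (b g) (b g')`. -/
def StGA : Prop :=
  ∀ (G : Type) [CommGroup G] (E : Type) [AddCommGroup E] [Module ℚ E]
    (q : E →ₗ[ℚ] E →ₗ[ℚ] ℚ) (b : G → E), (∀ g : G, ∃ m, 0 < m ∧ g ^ m = 1) →
    (∀ x y, q x y = q y x) → b 1 = 0 →
    (∀ g₁ g₂ g₃ g₄ : G, g₁ * g₂ = g₃ * g₄ →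
      q (b g₁ + b g₂ - b g₃ - b g₄) (b g₁ + b g₂ - b g₃ - b g₄) = 0) →
    ∀ g g' : G, q (b g) (b g') = 0

/-! ### FT: the five-term relation over a locally finite field (100-180 lines)

PROOF. Fix `x ≠ 0, 1` and `m > 0` with `x ^ p ^ m = x`. The set `K₀ = {y | y ^ p ^ m = y}` is a finite
subfield of `k` containing `x` (closed under `+`, `-` by Frobenius; the roots of `Y ^ p ^ m - Y`; compare
`Pool.Agent.Helper91.PL.P3`, `p3_field`). Restrict `β` to `K₀` (or sum over the finite set `K₀`);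
put `β' z = 0` for `z = 0, 1` and `β' z = β z` otherwise, `N = #K₀`, `Σ = ∑ z ∈ K₀, β' z`.
`Σ = 0`: `z ↦ z⁻¹` gives `Σ = -Σ` (for `z = -1 ≠ 1` the hypothesis gives `β (-1) = - β (-1) = 0`; this
is included: `β' z⁻¹ = - β' z` for all `z ∈ K₀`).
Sum the five-term relation over `y ∈ K₀ \ {0, 1, x}`:
(1) `∑ β x = (N - 3) β x`;
(2) `∑ β y = Σ - β x = - β x`;
(3) `∑ β (y / x)`: `y / x` runs through `K₀ \ {0, 1/x, 1}`: `Σ - β (1/x) = β x`;
(4) `∑ β ((1 - y)/(1 - x))`: runs through `K₀ \ {1/(1-x), 0, 1}`: `Σ - β (1/(1-x)) = β (1-x) = - β x`;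
(5) `z = y (1 - x)/(x (1 - y))` runs through `K₀ \ {0, 1, 1 - 1/x}` (it is a Moebius transformation
sending `0, 1, x, ∞` to `0, ∞, 1, 1 - 1/x`; inverse: `y = x z / (1 - x + x z)`):
`Σ - β (1 - 1/x) = β (1/x) = - β x`.
Altogether `0 = (N - 3) β x + β x + β x + β x + β x = (N + 1) β x`, so `β x = 0`. -/
def StFT : Prop :=
  ∀ (p : ℕ) [Fact p.Prime] (k : Type) [Field k] [CharP k p] (β : k → ℚ), Alg p k →
    (∀ x, x ≠ 0 → x ≠ 1 → β x⁻¹ = - β x) → (∀ x, x ≠ 0 → x ≠ 1 → β (1 - x) = - β x) →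
    (∀ x y, x ≠ 0 → x ≠ 1 → y ≠ 0 → y ≠ 1 → x ≠ y →
      β x - β y + β (y / x) - β ((1 - y) / (1 - x)) - β (y * (1 - x) / (x * (1 - y))) = 0) →
    ∀ x, x ≠ 0 → x ≠ 1 → β x = 0

/-! ### RHO: representatives (40-80 lines)

PROOF. `rho P x = f %ₘ P` with `mk P f = x`; `P` monic of degree `d`, `d > 0` as `P` is irreducible.
`f %ₘ P` has degree less than `d` and `mk P (f %ₘ P) = mk P f`. Uniqueness: if `mk P a = mk P b` then
`P ∣ a - b`, so `a = b` if both have degree less than `d`; all identities for `rho` follow. Last but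
one: `a - b = P * s`; if `s ≠ 0` then `natDegree (a - b) = d + natDegree s` and
`natDegree (a - b) < d + e`. -/
def StRHO : Prop :=
  ∀ (F : Type) [Field F] (d : ℕ) (P : F[X]), PrD d P → 0 < d ∧
    (∀ x, AdjoinRoot.mk P (rho P x) = x) ∧ (∀ x, (rho P x).natDegree < d) ∧
    (∀ x y, rho P (x - y) = rho P x - rho P y) ∧ rho P 1 = 1 ∧ (∀ x, rho P x = 0 ↔ x = 0) ∧
    (∀ a : F[X], a.natDegree < d → rho P (AdjoinRoot.mk P a) = a) ∧
    (∀ (a b : F[X]) (e : ℕ), 0 < e → AdjoinRoot.mk P a = AdjoinRoot.mk P b →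
      a.natDegree < d + e → b.natDegree < d + e → ∃ s : F[X], a - b = P * s ∧ s.natDegree < e) ∧
    (∀ a : F[X], a ≠ 0 → a.natDegree < d → AdjoinRoot.mk P a ≠ 0)

/-! ### TOR: residue fields are locally finite (40-80 lines)

PROOF. `F` is algebraic over `ZMod p` (`x` is a root of `X ^ p ^ m - X`), `AdjoinRoot P` is algebraic
(finite) over `F`, so it is algebraic over `ZMod p`, and every `x` lies in the finite field
`(ZMod p)(x)` (see `PL.x4_pow` in `Pool/Agent/Helper91/PL/X4.lean`, copy it). For a unit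
`x ^ (p ^ m - 1) = 1`. An additive function on a torsion group is zero: `m * ℓ g = ℓ (g ^ m) = ℓ 1 = 0`. -/
def StTOR : Prop :=
  ∀ (p : ℕ) [Fact p.Prime] (F : Type) [Field F] [CharP F p] (P : F[X]) [Fact (Irreducible P)],
    Alg p F → CharP (AdjoinRoot P) p ∧ Alg p (AdjoinRoot P) ∧
      (∀ g : (AdjoinRoot P)ˣ, ∃ m, 0 < m ∧ g ^ m = 1) ∧
      ∀ l : (AdjoinRoot P)ˣ → ℚ, (∀ g h, l (g * h) = l g + l h) → ∀ g, l g = 0

/-! ### GEN: generalities (80-140 lines)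

PROOF. `0 = C 0`, `1 = C 1`, `-a = C (-1) * a`. `Sm L 1`: polynomials of degree less than one are
constants. (5): let `a ≠ 0`, `natDegree a < d + 1`. If `natDegree a < d` clear. Otherwise `a = C c * a₁`
with `a₁` monic of degree `d`, `L a = L a₁`. If `a₁` is irreducible it is in the second set, otherwise
`a₁ = b c` with `1 ≤ natDegree b, natDegree c < d` and `L a₁ = L b + L c ∈ Sm L d`. (7): the elements of
a span use finitely many generators (`Submodule.mem_sup`, `Submodule.mem_span_image_iff...` or span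
induction, with unions of finite sets). -/
def StGEN : Prop :=
  ∀ (F E : Type) [Field F] [AddCommGroup E] [Module ℚ E] (L : F[X] → E), Lg L →
    (L 0 = 0 ∧ L 1 = 0 ∧ ∀ a, L (-a) = L a) ∧
    (∀ d a, a.natDegree < d → L a ∈ Sm L d) ∧
    (∀ d e, d ≤ e → Sm L d ≤ Sm L e) ∧
    (∀ x ∈ Sm L 1, x = 0) ∧
    (∀ d, 1 ≤ d → Sm L (d + 1) ≤ VT L d {P | PrD d P}) ∧
    (∀ (d : ℕ) (T : Set F[X]), Sm L d ≤ VT L d T ∧ ∀ P ∈ T, L P ∈ VT L d T) ∧
    (∀ (d : ℕ) (T : Set F[X]) (x : E), x ∈ VT L d T →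
      ∃ T' : Finset F[X], (T' : Set F[X]) ⊆ T ∧ x ∈ VT L d (T' : Set F[X]))

/-! ### QA: a quadratic form which vanishes on the `f ≡ 1 mod P`, small part (60-100 lines)

PROOF. From GA, RHO, TOR, GEN. Apply GA to `G = (AdjoinRoot P)ˣ`, `b g = L (rho P g)` (`b 1 = L 1 = 0`). If
`g₁ g₂ = g₃ g₄`, `r_i = rho P g_i` (nonzero, small), then by RHO (8) with `e = d`
(`natDegree ≤ 2 d - 2 < 2 d`): `r₁ r₂ - r₃ r₄ = P s`, `s` small. If `s = 0` then
`L r₁ + L r₂ = L r₃ + L r₄`. If `s ≠ 0` then `r₁ r₂ + P (-s) = r₃ r₄`, so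
`Tri L P S (L r₁ + L r₂ - L r₃ - L r₄) (L s - L r₃ - L r₄)`. Finally `a = rho P (mk a)` for small `a`,
and `mk a ≠ 0` is a unit. -/
def StQA : Prop :=
  ∀ (p : ℕ) [Fact p.Prime] (F E : Type) [Field F] [CharP F p] [AddCommGroup E] [Module ℚ E]
    (L : F[X] → E) (d : ℕ) (P : F[X]) (S : Submodule ℚ E) (q : E →ₗ[ℚ] E →ₗ[ℚ] ℚ),
    Alg p F → Lg L → PrD d P → Sm L d ≤ S → (∀ x y, q x y = q y x) →
    (∀ x z, Tri L P S x z → q x x = 0) →
    ∀ a b : F[X], a ≠ 0 → b ≠ 0 → a.natDegree < d → b.natDegree < d → q (L a) (L b) = 0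

/-! ### QB: the quadratic form on `VT L d T` (120-180 lines)

PROOF. From RHO, TOR, GEN. By linearity `q = 0` on `Sm L d`. Let `Q x = q x x`. For `P' ∈ T` let
`m' = P' - P` (nonzero, small: both are monic of degree `d`), `π' = mk P' = mk m' ≠ 0` and
`y' = L P' - L m'`.
(1) `Q y' = 0`: `m' + P * 1 = P'`, so `Tri (L m' - L P') (L 1 - L P')`, and `Q (-y') = Q y'`.
(2) `q y' x = 0` for `x ∈ Sm L d`. Let `l g = q y' (L (rho P g))` for `g ∈ κˣ`; `l 1 = 0`,
`l π' = q y' (L m')` (`rho P π' = m'`). Let `a, b ∈ κˣ`, `c = π' a b⁻¹`. The polynomials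
`A = P' * rho a`, `C = rho b * rho c` have the same class and `natDegree ≤ 2 d - 1`, so
`A - C = P s` with `s` small (RHO (8), `e = d`), and `Q (L A - L C) = 0` (`Tri` if `s ≠ 0`; trivial if
`s = 0`; note `A ≠ 0`, `C ≠ 0`). With `w = L m' + [a] - [b] - [c] ∈ Sm L d`: `L A - L C = y' + w`, and
`0 = Q (y' + w) = Q y' + 2 q y' w + Q w = 2 q y' w`. So `l π' + l a = l b + l (π' a b⁻¹)`. `b = 1`:
`l (π' a) = l π' + l a`. For `g, h ∈ κˣ` take `a = g h π'⁻¹`, `b = g`: `l g + l h = l π' + l a =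
l (π' a) = l (g h)`. So `l = 0` by TOR, and the small polynomials are the `rho P g`.
(3) `q y' y'' = 0` for different `P', P'' ∈ T`: let `b = π' π''⁻¹`, `A = P'`, `C = P'' * rho b`:
same class, `natDegree ≤ 2 d - 1`, so `Q (L A - L C) = 0` as before; `L A - L C = y' - y'' + w`,
`w = L m' - L m'' - [b] ∈ Sm L d`, and the expansion gives `- 2 q y' y'' = 0`.
Since `L P' = y' + L m'`, `VT L d T` is spanned by `Sm L d` and the `y'`. -/
def StQB : Prop :=
  ∀ (p : ℕ) [Fact p.Prime] (F E : Type) [Field F] [CharP F p] [AddCommGroup E] [Module ℚ E]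
    (L : F[X] → E) (d : ℕ) (P : F[X]) (T : Set F[X]) (q : E →ₗ[ℚ] E →ₗ[ℚ] ℚ),
    Alg p F → Lg L → PrD d P → (∀ P' ∈ T, PrD d P' ∧ P' ≠ P) → (∀ x y, q x y = q y x) →
    (∀ x z, Tri L P (VT L d T) x z → q x x = 0) →
    (∀ a b : F[X], a ≠ 0 → b ≠ 0 → a.natDegree < d → b.natDegree < d → q (L a) (L b) = 0) →
    ∀ x ∈ VT L d T, ∀ y ∈ VT L d T, q x y = 0

/-! ### CMP: comparison of symbols (60-100 lines)

PROOF. Uses GEN (1). Write `A = L a`, `K = L c`, `D = L (c - a)`, `A' = L a'`, `K' = L c'`,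
`D' = L (c' - a')`. If `s = 0` then `a c' = a' c` and `(c - a) c' = c (c' - a')`, so `A - K = A' - K'`
and `D - K = D' - K'`. Let `s ≠ 0`. There are three triples (`Tri`), all terms are in `S`:
`a' c + P s = c' a`: `x₁ = A' + K - K' - A`, `z₁ = L s - K' - A`;
`(c' - a') c + P (-s) = c' (c - a)`: `x₂ = D' + K - K' - D`, `z₂ = L s - K' - D`;
`a' (c - a) + P s = a (c' - a')`: `x₃ = A' + D - A - D'`, `z₃ = L s - A - D'`.
`x₃ = x₁ - x₂`, so `n x₃ = n x₁ - n x₂`, i.e. `m x₁ z₁ - m x₂ z₂ = m (x₁ - x₂) z₃`, that is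
`m x₁ (z₁ - z₃) = m x₂ (z₂ - z₃)`, with `z₁ - z₃ = D' - K'`, `z₂ - z₃ = A + D' - K' - D`.
Put `U = A - K`, `U' = D - K`, `V = A' - K'`, `V' = D' - K'`: `m (V - U) V' = m (V' - U') (V' - U' + U)`,
and `m` is alternating on `S`: `m (V' - U') (V' - U') = 0`. So
`m V V' - m U V' = m V' U - m U' U`, hence `m V V' = - m U' U`, `m V' V = m U' U`. -/
def StCMP : Prop :=
  ∀ (F E : Type) [Field F] [AddCommGroup E] [Module ℚ E] (L : F[X] → E) (P : F[X])
    (S : Submodule ℚ E) (m : E →ₗ[ℚ] E →ₗ[ℚ] ℚ) (n : E →ₗ[ℚ] ℚ), Lg L →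
    (∀ x ∈ S, m x x = 0) → (∀ x z, Tri L P S x z → m x z = n x) →
    ∀ a c a' c' s : F[X], a ≠ 0 → c ≠ 0 → c - a ≠ 0 → a' ≠ 0 → c' ≠ 0 → c' - a' ≠ 0 →
      L a ∈ S → L c ∈ S → L (c - a) ∈ S → L a' ∈ S → L c' ∈ S → L (c' - a') ∈ S → L s ∈ S →
      a * c' - a' * c = P * s → Z L m a c = Z L m a' c'

/-! ### BA: reduction to small lifts (60-100 lines)

PROOF. From CMP, RHO, GEN. Let `r = rho P (mk (a b) / mk c')` (small, nonzero) and
`x = rho P (mk (a b) / mk (c c'))` (small, nonzero, `≠ 1` since `mk (c c' - a b) ≠ 0`).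
Step 1: CMP for the pairs `(a b, c c')` and `(r, c)`: `a b c - r c c' = c (a b - r c')` and
`a b - r c' = P s₁` with `s₁` small (RHO (8), `e = d`), so it is `P (c s₁)` with `L (c s₁) ∈ Sm L d`
(if `s₁ ≠ 0` it is `L c + L s₁`, otherwise `L 0 = 0`). `c - r ≠ 0` since its class is not zero
(`mk c = mk r` would give `mk (c c') = mk (a b)`), and it is small.
Step 2: CMP for `(r, c)` and `(x, 1)`: `r * 1 - x * c = P s₂`, `s₂` small. `1 - x` is nonzero and
small. -/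
def StBA : Prop :=
  ∀ (F E : Type) [Field F] [AddCommGroup E] [Module ℚ E] (L : F[X] → E) (d : ℕ) (P : F[X])
    [Fact (Irreducible P)] (S : Submodule ℚ E) (m : E →ₗ[ℚ] E →ₗ[ℚ] ℚ) (n : E →ₗ[ℚ] ℚ),
    Lg L → PrD d P → Sm L d ≤ S → (∀ x ∈ S, m x x = 0) →
    (∀ x z, Tri L P S x z → m x z = n x) →
    ∀ a b c c' : F[X], a ≠ 0 → b ≠ 0 → c ≠ 0 → c' ≠ 0 → a.natDegree < d → b.natDegree < d →
      c.natDegree < d → c'.natDegree < d → L (c * c' - a * b) ∈ S →
      AdjoinRoot.mk P (c * c' - a * b) ≠ 0 →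
      Z L m (a * b) (c * c') =
        Z L m (rho P (AdjoinRoot.mk P (a * b) / AdjoinRoot.mk P (c * c'))) 1

/-! ### BB: the symbols with small terms are killed (120-180 lines)

PROOF. From BA, FT, RHO, TOR, GEN. Let `κ = AdjoinRoot P` (a field of characteristic `p`, `Alg p κ` by
TOR) and `β x = Z L m (rho P x) 1 = m (L (1 - x')) (L x')`, `x' = rho P x` (`L 1 = 0`). By BA it suffices
to show `β = 0` on `κ \ {0, 1}` (the argument in BA is `≠ 0, 1`). Use FT. Let `x, y ∈ κ \ {0, 1}`, `x ≠ y`,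
`x' = rho P x`, `y' = rho P y`; `x'`, `1 - x'`, `y'`, `1 - y'`, `x' - y'` are nonzero and small, so their `L`
is in `Sm L d ≤ S`.
`β (x⁻¹) = - β x`: BA with `a = 1, b = 1, c = x', c' = 1` (`c c' - a b = x' - 1`):
`β (1 / x) = Z L m 1 x' = m (L (x' - 1) - L x') (- L x') = - m (L (1 - x')) (L x')` (alternating on `S`).
`β (1 - x) = - β x`: `rho P (1 - x) = 1 - x'`, and `m (L x') (L (1 - x')) = - m (L (1 - x')) (L x')`.
Five-term: BA gives `Z L m y' x' = β (y / x)` (`a = y', b = 1, c = x', c' = 1`),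
`Z L m (1 - y') (1 - x') = β ((1 - y)/(1 - x))`, and with `a = y', b = 1 - x', c = x', c' = 1 - y'`
(`c c' - a b = x' - y'`) `Z L m (y' (1 - x')) (x' (1 - y')) = β (y (1 - x)/(x (1 - y)))`. Write
`U = L x'`, `U' = L (1 - x')`, `V = L y'`, `V' = L (1 - y')`, `s = L (x' - y') = L (y' - x')`. Then
`β x - β y + β (y/x) - β ((1-y)/(1-x)) - β (..) = m U' U - m V' V + m (s - U) (V - U)
- m (s - U') (V' - U') - m (s - U - V') (V + U' - U - V')`, which is zero for every form that is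
alternating on `S` (expand). -/
def StBB : Prop :=
  ∀ (p : ℕ) [Fact p.Prime] (F E : Type) [Field F] [CharP F p] [AddCommGroup E] [Module ℚ E]
    (L : F[X] → E) (d : ℕ) (P : F[X]) (S : Submodule ℚ E) (m : E →ₗ[ℚ] E →ₗ[ℚ] ℚ)
    (n : E →ₗ[ℚ] ℚ), Alg p F →
    Lg L → PrD d P → Sm L d ≤ S → (∀ x ∈ S, m x x = 0) →
    (∀ x z, Tri L P S x z → m x z = n x) →
    ∀ a b c c' : F[X], a ≠ 0 → b ≠ 0 → c ≠ 0 → c' ≠ 0 → a.natDegree < d → b.natDegree < d →
      c.natDegree < d → c'.natDegree < d → L (c * c' - a * b) ∈ S →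
      AdjoinRoot.mk P (c * c' - a * b) ≠ 0 → Z L m (a * b) (c * c') = 0

/-! ### TA: one degree of the weight two induction (80-120 lines)

PROOF. From RHO, TOR, GEN. Let `R ∈ T`, `κ = AdjoinRoot R`, `l g = A (L R) (L (rho R g))` for `g ∈ κˣ`. For
`g, h ∈ κˣ` let `a = rho g`, `b = rho h`, `c = rho (g h)`; `a b - c = R s` with `natDegree s < e` (RHO (8)
with `e`, or degrees). If `s = 0`: `L a + L b = L c`. If `s ≠ 0`: the first hypothesis and `A = 0` on
`Sm L e` give `A (L R) (L a + L b - L c) = 0`. So `l` is additive and zero by TOR: `A (L R) x = 0` for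
`x ∈ Sm L e`; also `A x (L R) = 0`, as `A` is alternating on `VT L e T`. For `R ≠ R'` in `T` let
`r = R - R'` (nonzero, `natDegree r < e`, both monic of degree `e`): `A (L r - L R') (L R - L R') = 0`,
and expanding, with `A (L r) _ = 0` and `A (L R') (L R') = 0`: `A (L R') (L R) = 0`. -/
def StTA : Prop :=
  ∀ (p : ℕ) [Fact p.Prime] (F E : Type) [Field F] [CharP F p] [AddCommGroup E] [Module ℚ E]
    (L : F[X] → E) (e : ℕ) (T : Set F[X]) (A : E →ₗ[ℚ] E →ₗ[ℚ] ℚ), Alg p F → Lg L →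
    (∀ R ∈ T, PrD e R) → (∀ x ∈ VT L e T, A x x = 0) →
    (∀ x ∈ Sm L e, ∀ y ∈ Sm L e, A x y = 0) →
    (∀ R ∈ T, ∀ a b c s : F[X], a ≠ 0 → b ≠ 0 → c ≠ 0 → s ≠ 0 → a.natDegree < e →
      b.natDegree < e → c.natDegree < e → s.natDegree < e → a * b = c + R * s →
      A (L R + L s - L c) (L a + L b - L c) = 0) →
    (∀ R ∈ T, ∀ R' ∈ T, ∀ r : F[X], r ≠ 0 → r.natDegree < e → R = R' + r →
      A (L r - L R') (L R - L R') = 0) →
    ∀ x ∈ VT L e T, ∀ y ∈ VT L e T, A x y = 0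

/-! ### TB: the weight two induction (40-80 lines)

PROOF. From TA, GEN. Claim: `A = 0` on `Sm L e` for `1 ≤ e ≤ d`. `e = 1`: GEN (4). Step from `e` to
`e + 1 ≤ d`: TA with `T := {R | PrD e R}`; `VT L e T ≤ Sm L d` since the primes of degree `e < d` are
small, so `A` is alternating there. First hypothesis of TA: from `h1` with `R` small. Second: `h1` with
`R := r`, `a := R`, `b := 1`, `c := R'`, `s := 1` (`R * 1 = R' + r * 1`, `L 1 = 0`). `Sm L (e + 1)` is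
contained in `VT L e T` by GEN (5). Finally TA with `e = d` and `T`. -/
def StTB : Prop :=
  ∀ (p : ℕ) [Fact p.Prime] (F E : Type) [Field F] [CharP F p] [AddCommGroup E] [Module ℚ E]
    (L : F[X] → E) (d : ℕ) (T : Set F[X]) (A : E →ₗ[ℚ] E →ₗ[ℚ] ℚ), Alg p F → Lg L → 1 ≤ d →
    (∀ R ∈ T, PrD d R) → (∀ x ∈ VT L d T, A x x = 0) →
    (∀ R a b c s : F[X], R ≠ 0 → a ≠ 0 → b ≠ 0 → c ≠ 0 → s ≠ 0 → (R.natDegree < d ∨ R ∈ T) →
      a.natDegree < d → b.natDegree < d → c.natDegree < d → s.natDegree < d → a * b = c + R * s →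
      A (L R + L s - L c) (L a + L b - L c) = 0) →
    (∀ R ∈ T, ∀ R' ∈ T, ∀ r : F[X], r ≠ 0 → r.natDegree < d → R = R' + r →
      A (L r - L R') (L R - L R') = 0) →
    ∀ x ∈ VT L d T, ∀ y ∈ VT L d T, A x y = 0

/-! ### NZ: a linear form which vanishes on the `f ≡ 1 mod P` (50-80 lines)

PROOF. From RHO, TOR, GEN. Let `l g = n (L (rho P g))`, `g ∈ κˣ`. With `a = rho g`, `b = rho h`,
`c = rho (g h)`: `a b - c = P s`, `s` small; if `s ≠ 0` then `a b + P (-s) = c`, so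
`Tri (L a + L b - L c) (L s - L c)` and `l g + l h = l (g h)` (clear if `s = 0`). So `l = 0` by TOR and
`n = 0` on `Sm L d`. For `P' ∈ T`: `m' = P' - P` is nonzero and small, `m' + P * 1 = P'`, so
`n (L m' - L P') = 0`, `n (L P') = n (L m') = 0`. -/
def StNZ : Prop :=
  ∀ (p : ℕ) [Fact p.Prime] (F E : Type) [Field F] [CharP F p] [AddCommGroup E] [Module ℚ E]
    (L : F[X] → E) (d : ℕ) (P : F[X]) (T : Set F[X]) (n : E →ₗ[ℚ] ℚ), Alg p F → Lg L →
    PrD d P → (∀ P' ∈ T, PrD d P' ∧ P' ≠ P) → (∀ x z, Tri L P (VT L d T) x z → n x = 0) →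
    ∀ x ∈ VT L d T, n x = 0

/-! ### MZ: the alternating form (80-120 lines)

PROOF. From BB, TB, GEN, RHO. Let `S = VT L d T`. Use TB for `A = m`.
First hypothesis of TB: `a b = c + R s`, `R s` is not divisible by `P` (`R` is nonzero and small, or a
prime of `T`, different from `P`; `s` is nonzero and small; `P` is prime), so
`mk P (c * 1 - a b) = - mk P (R s) ≠ 0`, and `L (c - a b) = L R + L s ∈ S`. BB with `c' = 1`:
`0 = Z L m (a b) c = m (L R + L s - L c) (L a + L b - L c)`.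
Second: `R = R' + r`, `R, R' ∈ T`. Let `m₁ = R - P`, `m₂ = R' - P` (small, nonzero), `m₁ - m₂ = r`.
CMP for the pairs `(R, R')` and `(m₁, m₂)` with `s := r`:
`R m₂ - m₁ R' = R (R' - P) - (R - P) R' = P (R' - R) = P (-r)`; all terms are in `S`. So
`Z L m R R' = Z L m m₁ m₂ = 0` by BB (`a = m₁, b = 1, c = m₂, c' = 1`, `m₂ - m₁ = - r`,
`mk P r ≠ 0`). And `Z L m R R' = m (L r - L R') (L R - L R')`. -/
def StMZ : Prop :=
  ∀ (p : ℕ) [Fact p.Prime] (F E : Type) [Field F] [CharP F p] [AddCommGroup E] [Module ℚ E]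
    (L : F[X] → E) (d : ℕ) (P : F[X]) (T : Set F[X]) (m : E →ₗ[ℚ] E →ₗ[ℚ] ℚ)
    (n : E →ₗ[ℚ] ℚ), Alg p F → Lg L → PrD d P → (∀ P' ∈ T, PrD d P' ∧ P' ≠ P) →
    (∀ x ∈ VT L d T, m x x = 0) → (∀ x z, Tri L P (VT L d T) x z → m x z = n x) →
    ∀ x ∈ VT L d T, ∀ y ∈ VT L d T, m x y = 0

/-! ### POL: polarisation (20-40 lines)

PROOF. Expand `φ w w w = 0` for `w = x + y + z`, `x + y`, `x + z`, `y + z`, `x`, `y`, `z` and use
inclusion-exclusion: the sum of the six values `φ` at the permutations of `(x, y, z)` is zero, and by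
symmetry in the last two variables it is twice the left side. -/
def StPOL : Prop :=
  ∀ (E : Type) [AddCommGroup E] [Module ℚ E] (φ : E →ₗ[ℚ] E →ₗ[ℚ] E →ₗ[ℚ] ℚ), Adm3 φ →
    ∀ x y z, φ x y z + φ y x z + φ z x y = 0

/-! ### STP: one prime more (100-160 lines)

PROOF. From QA, QB, MZ, NZ, POL, GEN. Let `S = VT L d T`, `π = L P`, `L (P * b) = π + L b`.
`q x y = φ π x y` (symmetric). If `Tri L P S x z` (`a + P b = c`) then `Ste3` for `a, P b, c` says
`φ (π + z) x x = 0`, and `φ z x x = 0` (`φ = 0` on `S`): `q x x = 0`. By QA, QB `q = 0` on `S`.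
`m x y = φ x π y`, `n x = φ π π x`. If `Tri L P S x z` then `Ste3` for `P b, a, c` says
`φ x (π + z) (π + z) = 0`, i.e. `φ x π π + 2 φ x π z + φ x z z = 0`, the last term is zero, and
`φ x π π = - 2 φ π π x` by POL (`φ x π π + φ π x π + φ π x π = 0`). So `m x z = n x`. By POL
`q x y + m x y + m y x = 0`, so `m x x = 0` on `S`. By MZ `m = 0` on `S`. Hence `n x = 0` for
`Tri L P S x z` and `n = 0` on `S` by NZ. Now `φ` vanishes if one argument is `π` and the two others in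
`S` (`q`, `m`, symmetry), if two arguments are `π` and one in `S` (`n`, `φ x π π = - 2 n x`), and
`φ π π π = 0`. `VT L d (insert P T) ≤ S ⊔ span {π}`. -/
def StSTP : Prop :=
  ∀ (p : ℕ) [Fact p.Prime] (F E : Type) [Field F] [CharP F p] [AddCommGroup E] [Module ℚ E]
    (L : F[X] → E) (d : ℕ) (P : F[X]) (T : Set F[X]) (φ : E →ₗ[ℚ] E →ₗ[ℚ] E →ₗ[ℚ] ℚ),
    Alg p F → Lg L → PrD d P → (∀ P' ∈ T, PrD d P' ∧ P' ≠ P) → Adm3 φ → Ste3 L φ →
    (∀ x ∈ VT L d T, ∀ y ∈ VT L d T, ∀ z ∈ VT L d T, φ x y z = 0) →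
    ∀ x ∈ VT L d (insert P T), ∀ y ∈ VT L d (insert P T), ∀ z ∈ VT L d (insert P T), φ x y z = 0

/-! ### IND: weight three (40-80 lines)

PROOF. From STP, GEN. Claim: `φ = 0` on `Sm L d` for all `d ≥ 1`, by induction. `d = 1`: GEN (4). Step:
`φ = 0` on `VT L d T` for every finite set `T` of monic irreducible polynomials of degree `d`, by
`Finset.induction` and STP (`VT L d ∅ = Sm L d`). Three elements of `VT L d {P | PrD d P}` lie in
`VT L d T` for one finite `T` (GEN (7), `VT` is monotone in `T`), so `φ = 0` on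
`VT L d {P | PrD d P} ≥ Sm L (d + 1)` (GEN (5)). Every three vectors of `E` lie in `Sm L d` for large `d`
(GEN (3)). -/
def StIND : Prop :=
  ∀ (p : ℕ) [Fact p.Prime] (F E : Type) [Field F] [CharP F p] [AddCommGroup E] [Module ℚ E]
    (L : F[X] → E) (φ : E →ₗ[ℚ] E →ₗ[ℚ] E →ₗ[ℚ] ℚ), Alg p F → Lg L →
    (∀ x : E, ∃ d, x ∈ Sm L d) → Adm3 φ → Ste3 L φ → ∀ x y z, φ x y z = 0

/-! ### SPB: weight two (20-40 lines)

PROOF. From TB, GEN. For every `d ≥ 1` apply TB with `T = ∅` (`VT L d ∅ = Sm L d`): if `a b = c + R s`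
then `a b + R (-s) = c` and the hypothesis says
`A (L R + L s - L c) (L a + L b - L c) = 0`. -/
def StSPB : Prop :=
  ∀ (p : ℕ) [Fact p.Prime] (F E : Type) [Field F] [CharP F p] [AddCommGroup E] [Module ℚ E]
    (L : F[X] → E) (A : E →ₗ[ℚ] E →ₗ[ℚ] ℚ), Alg p F → Lg L → (∀ x : E, ∃ d, x ∈ Sm L d) →
    (∀ x, A x x = 0) →
    (∀ a b c : F[X], a ≠ 0 → b ≠ 0 → c ≠ 0 → a + b = c → A (L b - L c) (L a - L c) = 0) →
    ∀ x y, A x y = 0

end Pool.Agent.Helper98.WF
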